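import Mathlib
import Pool.Agent.Lib.MP_8d161d_ag.Defs
import Pool.Agent.Lib.MP_8d161d_ag.Cover
import Pool.Agent.Lib.MP_8d161d_ag.SM.W2
import Pool.Agent.Lib.MP_8d161d_ag.CV.S2
import Pool.Agent.Lib.MP_8d161d_ag.CV.V1
import Pool.Agent.Lib.MP_8d161d_ag.CV.H4
import Pool.Agent.Lib.MP_8d161d_ag.CV.K3
import Pool.Agent.Lib.MP_8d161d_ag.CR.K2

/-!
A second main theorem in which every point of the union of many general hypersurfaces is counted
only once, and the Green-Griffiths-Lang conjecture for covers with partial ramification of order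
two over many general hypersurface sections.

Let `L = 4 · 10⁶ n¹⁰ k⁵`, `d ≥ 1`, let `h j` be `N` general forms of degree `d` on `P^n` and let `S`
be a set of at least `L` of them. Every non-constant entire curve satisfies
`(1 - 1 / k) |S| d T(r) ≤ N₁(r, D) + O(log r + log⁺ T(r))` outside a set of finite measure, where
`D` is the union of the hypersurfaces `h j = 0`, `j ∈ S`, that do not contain the curve and every
point of the curve on `D` is counted once, also if it lies on several of the hypersurfaces. The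
curve may be algebraically degenerate. Consequently every entire curve in a variety `X` with a
regular map to `P^n` such that all arcs of `X` meet the union of the hypersurfaces with total order
zero or at least two is constant in `P^n` or lies over one of the hypersurfaces. Examples of such
`X` are the double covers `w² = ∏ h j` of all subvarieties of `P^n` and the hypersurfaces
`W² = ∏ h j` in `P^n` for an arbitrary form `W`. If this holds for `n` disjoint sets `S`, for
example for the covers `w_i² = ∏ h j`, `j ∈ S_i`, `i = 1, …, n`, then every entire curve in `X` is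
constant in `P^n`.
-/

open MvPolynomial Filter Topology Pool.Agent.Lib.GGL

namespace Pool.Agent.Results.MP_8d161d_ag.DoubleCovers

/-- The exponents of the monomials of degree `d` in `n + 1` variables. -/
abbrev Exponent (n d : ℕ) : Type := {t : Fin (n + 1) → Fin (d + 1) // ∑ i, (t i : ℕ) = d}

/-- The value at `y` of the form of degree `d` in `n + 1` variables with the coefficients `q`. -/
noncomputable def form {n d : ℕ} (q : Exponent n d → ℂ) (y : Fin (n + 1) → ℂ) : ℂ :=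
  ∑ t, q t * ∏ i, y i ^ (t.1 i : ℕ)

/-- The Nevanlinna characteristic `T(r)` of the entire curve with reduced representation `Y`: the
mean value of `log ‖Y‖` (maximum norm) on the circle `|z| = r`. -/
noncomputable def characteristic {n : ℕ} (Y : ℂ → Fin (n + 1) → ℂ) (r : ℝ) : ℝ :=
  Real.circleAverage (fun z => Real.log ‖Y z‖) 0 r

/-- The point `z` of the curve lies on one of those hypersurfaces `form (h j) = 0`, `j ∈ S`, that
do not contain the curve. -/
def OnUnion {n d N : ℕ} (h : Fin N → Exponent n d → ℂ) (S : Finset (Fin N))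
    (Y : ℂ → Fin (n + 1) → ℂ) (z : ℂ) : Prop :=
  ∃ j ∈ S, (∃ w, form (h j) (Y w) ≠ 0) ∧ form (h j) (Y z) = 0

/-- The counting function of the union of those hypersurfaces `form (h j) = 0`, `j ∈ S`, that do
not contain the curve, every point of the curve on it counted once (also if it lies on several
hypersurfaces or is a point of contact): the sum of `log (r / |z|)` over these points with
`0 < |z| ≤ r`, plus `log r` if `0` is one of them. -/
noncomputable def countOnce {n d N : ℕ} (h : Fin N → Exponent n d → ℂ) (S : Finset (Fin N))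
    (Y : ℂ → Fin (n + 1) → ℂ) (r : ℝ) : ℝ :=
  (∑ᶠ z ∈ {z : ℂ | OnUnion h S Y z ∧ z ≠ 0 ∧ ‖z‖ ≤ r}, Real.log (r / ‖z‖)) +
    (open Classical in if OnUnion h S Y 0 then Real.log r else 0)

/-- `4 · 10⁶ n¹⁰ k⁵`. -/
def bound (n k : ℕ) : ℕ := 4 * 10 ^ 6 * n ^ 10 * k ^ 5

/-- Every holomorphic arc in `X` whose image under `φ` meets the union of the hypersurfaces
`form (h j) = 0`, `j ∈ S`, at a point meets it there with total order at least `μ`: the orders of
vanishing of the `form (h j) G`, `j ∈ S`, add up to at least `μ` (possibly to infinity), for every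
holomorphic lift `G` of the image. -/
def MeetsUnionWithOrder {m n d N : ℕ} (μ : ℕ) (X : Set (PSpace m)) (φ : PSpace m → PSpace n)
    (h : Fin N → Exponent n d → ℂ) (S : Finset (Fin N)) : Prop :=
  ∀ (c : ℂ → PSpace m) (z₀ : ℂ), HolomorphicNear c z₀ → (∀ᶠ z in 𝓝 z₀, c z ∈ X) →
    ∀ G : ℂ → Fin (n + 1) → ℂ, IsLift (fun z => φ (c z)) G z₀ →
      (∃ j ∈ S, form (h j) (G z₀) = 0) →
        (μ : ℕ∞) ≤ ∑ j ∈ S, analyticOrderAt (fun z => form (h j) (G z)) z₀

/-- The product of the forms `h j ∘ φ`, `j ∈ S`, is locally on `X` a `μ`-th power: near every point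
of `X` the map `φ` is given by forms `Φ i` of one degree, and the product of the `form (h j) Φ`,
`j ∈ S`, multiplied with a form `U` that does not vanish at the point, is on `X` the `μ`-th power
of a form `W` (of the right degree). For example `X` is the cyclic cover
`w ^ μ = ∏ j ∈ S, form (h j) y` of a subvariety of `P^n`. -/
def ProductIsPower {m n d N : ℕ} (μ : ℕ) (X : Set (PSpace m)) (φ : PSpace m → PSpace n)
    (h : Fin N → Exponent n d → ℂ) (S : Finset (Fin N)) : Prop :=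
  ∀ x ∈ X, ∃ (e a b : ℕ) (Φ : Fin (n + 1) → MvPolynomial (Fin (m + 1)) ℂ)
    (U W : MvPolynomial (Fin (m + 1)) ℂ),
    (∀ i, (Φ i).IsHomogeneous e) ∧ U.IsHomogeneous a ∧ W.IsHomogeneous b ∧
    a + S.card * (d * e) = μ * b ∧ (∃ i, eval x.rep (Φ i) ≠ 0) ∧ eval x.rep U ≠ 0 ∧
    (∀ y ∈ X, ∀ hy : (fun i => eval y.rep (Φ i)) ≠ 0,
      φ y = Projectivization.mk ℂ (fun i => eval y.rep (Φ i)) hy) ∧
    ∀ y ∈ X, eval y.rep U * ∏ j ∈ S, form (h j) (fun i => eval y.rep (Φ i)) = eval y.rep W ^ μ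

/-- The conclusion of the conjecture for `φ : X → P^n`, with the exceptional set `B`: for every
entire curve `f` in `X` the curve `φ ∘ f` is constant or `f` lies in `B`; hence every non-constant
entire curve in `X` lies in `Z` if `Z` contains `B` and all points of `X` on infinite fibres
of `φ`. -/
def CurvesDegenerate {m n : ℕ} (X : Set (PSpace m)) (φ : PSpace m → PSpace n)
    (B : Set (PSpace m)) : Prop :=
  (∀ f : ℂ → PSpace m, (∀ z, HolomorphicNear f z) → (∀ z, f z ∈ X) →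
    (∀ z w, φ (f z) = φ (f w)) ∨ ∀ z, f z ∈ B) ∧
  ∀ Z : Set (PSpace m), B ⊆ Z → (∀ x ∈ X, ¬ {y ∈ X | φ y = φ x}.Finite → x ∈ Z) →
    ∀ f : ℂ → PSpace m, (∀ z, HolomorphicNear f z) → (∀ z, f z ∈ X) → (∃ z w, f z ≠ f w) →
      ∀ z, f z ∈ Z

lemma rep_smul {n : ℕ} {y : Fin (n + 1) → ℂ} (h : y ≠ 0) :
    ∃ c : ℂ, c ≠ 0 ∧ (Projectivization.mk ℂ y h).rep = c • y := by
  obtain ⟨v, hv⟩ := (Projectivization.mk_eq_mk_iff ℂ _ _
    (Projectivization.rep_nonzero _) h).mp
      (Projectivization.mk_rep (Projectivization.mk ℂ y h))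
  exact ⟨(v : ℂ), v.ne_zero, by rw [← hv]; rfl⟩

lemma form_smul {n d : ℕ} (q : Exponent n d → ℂ) (c : ℂ) (y : Fin (n + 1) → ℂ) :
    form q (c • y) = c ^ d * form q y := by
  unfold form
  rw [Finset.mul_sum]
  refine Finset.sum_congr rfl fun t _ => ?_
  have h1 : ∏ i, (c • y) i ^ (t.1 i : ℕ) = c ^ d * ∏ i, y i ^ (t.1 i : ℕ) := by
    have h2 : c ^ d = ∏ i, c ^ (t.1 i : ℕ) := by
      rw [Finset.prod_pow_eq_pow_sum]
      exact congrArg (fun e => c ^ e) t.2.symm
    rw [h2, ← Finset.prod_mul_distrib]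
    refine Finset.prod_congr rfl fun i _ => ?_
    rw [Pi.smul_apply, smul_eq_mul, mul_pow]
  rw [h1]
  ring

lemma form_analyticAt {n d : ℕ} (q : Exponent n d → ℂ) {G : ℂ → Fin (n + 1) → ℂ} {z₀ : ℂ}
    (hG : AnalyticAt ℂ G z₀) : AnalyticAt ℂ (fun z => form q (G z)) z₀ := by
  unfold form
  refine Finset.analyticAt_fun_sum _ fun t _ => analyticAt_const.mul ?_
  exact Finset.analyticAt_fun_prod _ fun i _ => ((analyticAt_pi_iff.mp hG) i).pow _

/-- the counting function -/
lemma count_meets {n d N : ℕ} (h : Fin N → Exponent n d → ℂ) (S : Finset (Fin N))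
    {Y : ℂ → Fin (n + 1) → ℂ} (hY : Differentiable ℂ Y) {r : ℝ} (hr : 1 ≤ r) :
    CR.count (CV.meets (fun i => h (S.orderEmbOfFin rfl i)) Y) r = countOnce h S Y r := by
  classical
  have hset : CV.meets (fun i => h (S.orderEmbOfFin rfl i)) Y = {z | OnUnion h S Y z} := by
    ext z
    exact CV.exists_sub S fun j => (∃ w, form (h j) (Y w) ≠ 0) ∧ form (h j) (Y z) = 0
  have hfin : CR.DiscFinite {z | OnUnion h S Y z} := by
    intro r
    have h1 : (⋃ j : Fin N, {z | (∃ w, CV.form (h j) (Y w) ≠ 0) ∧ CV.form (h j) (Y z) = 0} ∩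
        Metric.closedBall 0 r).Finite := by
      refine Set.finite_iUnion fun j => ?_
      by_cases hj : ∃ w, CV.form (h j) (Y w) ≠ 0
      · refine (CR.DiscFinite.zeros (CV.form_differentiable hY (h j)) hj r).subset ?_
        rintro z ⟨⟨-, h2⟩, h3⟩
        exact ⟨h2, h3⟩
      · refine Set.Finite.subset Set.finite_empty ?_
        rintro z ⟨⟨h2, -⟩, -⟩
        exact absurd h2 hj
    refine h1.subset ?_
    rintro z ⟨⟨j, -, h2, h3⟩, h4⟩
    exact Set.mem_iUnion.mpr ⟨j, ⟨h2, h3⟩, h4⟩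
  rw [hset]
  exact CR.count_split hfin hr

lemma degenerate_of {m n : ℕ} {X : Set (PSpace m)} {φ : PSpace m → PSpace n}
    {B : Set (PSpace m)} (hcurve : ∀ f : ℂ → PSpace m, (∀ z, HolomorphicNear f z) →
      (∀ z, f z ∈ X) → (∀ z w, φ (f z) = φ (f w)) ∨ ∀ z, f z ∈ B) : CurvesDegenerate X φ B := by
  refine ⟨hcurve, ?_⟩
  intro Z hB hZ f hf hfX ⟨w₁, w₂, hw⟩ z
  rcases hcurve f hf hfX with h3 | h3
  · by_contra hz
    apply hw
    apply const_of_finite hf
    have h5 : {y ∈ X | φ y = φ (f z)}.Finite := by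
      by_contra h6
      exact hz (hZ _ (hfX z) h6)
    apply h5.subset
    rintro _ ⟨w, rfl⟩
    exact ⟨hfX w, h3 w z⟩
  · exact hB (h3 z)

/-- the reduced representation and the forms -/
lemma rep_zero {n d N : ℕ} (h : Fin N → Exponent n d → ℂ) {x : PSpace n} {y : Fin (n + 1) → ℂ}
    (hy : y ≠ 0) (hx : x = Projectivization.mk ℂ y hy) (j : Fin N) :
    form (h j) x.rep = 0 ↔ form (h j) y = 0 := by
  obtain ⟨c, hc, h3⟩ := rep_smul hy
  rw [hx, h3, form_smul, mul_eq_zero]
  exact ⟨fun h5 => h5.resolve_left (pow_ne_zero _ hc), Or.inr⟩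

lemma product_meets {m n d N μ : ℕ} {X : Set (PSpace m)} {φ : PSpace m → PSpace n}
    {h : Fin N → Exponent n d → ℂ} {S : Finset (Fin N)} (hX : ProductIsPower μ X φ h S) :
    IsRegularOn X φ ∧ MeetsUnionWithOrder μ X φ h S := by
  have h1 : CV.ProductIsPower μ X φ (fun i => h (S.orderEmbOfFin rfl i)) := by
    intro x hx
    obtain ⟨e, a, b, Φ, U, W, h1, h2, h3, h4, h5, h6, h7, h8⟩ := hX x hx
    refine ⟨e, a, b, Φ, U, W, h1, h2, h3, h4, h5, h6, h7, fun y hy => ?_⟩
    rw [← h8 y hy, CV.prod_sub S fun j => CV.form (h j) fun i => eval y.rep (Φ i)]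
    rfl
  obtain ⟨h2, h3⟩ := CV.ProductIsPower.meets h1
  refine ⟨h2, ?_⟩
  intro c z₀ hc hcX G hG hj
  have h4 := h3 c z₀ hc hcX G hG ((CV.exists_sub S fun j => form (h j) (G z₀) = 0).mpr hj)
  rwa [CV.sum_sub S fun j => analyticOrderAt (fun z => CV.form (h j) (G z)) z₀] at h4

/-- the second main theorem for the subfamily `S` -/
abbrev HasSMT {n d N : ℕ} (k : ℕ) (h : Fin N → Exponent n d → ℂ) (S : Finset (Fin N)) : Prop :=
  ∀ Y : ℂ → Fin (n + 1) → ℂ, Differentiable ℂ Y → (∀ z, Y z ≠ 0) → ¬ SM.IsConst Y →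
    ∃ (C : ℝ) (E : Set ℝ), 0 ≤ C ∧ MeasureTheory.volume E < ⊤ ∧ ∀ r : ℝ, 1 ≤ r → r ∉ E →
      (1 - 1 / (k : ℝ)) * S.card * d * SM.height Y r ≤
        CR.count (CV.meets (fun i => h (S.orderEmbOfFin rfl i)) Y) r +
        C * (Real.log r + Real.posLog (SM.height Y r) + 1)

/-- covers with partial ramification -/
lemma degenerate {m n d N k μ : ℕ} (hd : 1 ≤ d) (hk : 1 ≤ k) (hμ : k < μ * (k - 1))
    {h : Fin N → Exponent n d → ℂ} {S : Finset (Fin N)} (hS : 1 ≤ S.card)
    (hmain : HasSMT k h S) {X : Set (PSpace m)} {φ : PSpace m → PSpace n}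
    (hφ : IsRegularOn X φ) (hmeet : MeetsUnionWithOrder μ X φ h S) (f : ℂ → PSpace m)
    (hf : ∀ z, HolomorphicNear f z) (hfX : ∀ z, f z ∈ X) :
    (∀ z w, φ (f z) = φ (f w)) ∨ ∃ j ∈ S, ∀ z, form (h j) (φ (f z)).rep = 0 := by
  by_contra hcon
  push Not at hcon
  obtain ⟨⟨z₁, z₂, hz⟩, hcon2⟩ := hcon
  obtain ⟨Y, hY, hYg⟩ := SM.exists_reduced (g := fun z => φ (f z))
    (fun z => holomorphicNear_comp hφ (hf z) (Filter.Eventually.of_forall hfX))
  have h0 : ∀ z, Y z ≠ 0 := fun z => (hYg z).1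
  have hne : ∀ i : Fin S.card, ∃ z, CV.form (h (S.orderEmbOfFin rfl i)) (Y z) ≠ 0 := by
    intro i
    obtain ⟨z, hz⟩ := hcon2 _ (S.orderEmbOfFin_mem rfl i)
    obtain ⟨h4, e1⟩ := hYg z
    exact ⟨z, fun h3 => hz ((rep_zero h h4 e1 _).mpr h3)⟩
  have hconst := CV.const_of_orders (m := μ) (N := S.card) hd hk hS hμ hmain hY h0 hne (by
    intro z hj
    have hl : IsLift (fun z => φ (f z)) Y z :=
      ⟨hY.analyticAt z, Filter.Eventually.of_forall fun w => hYg w⟩
    have h4 := hmeet f z (hf z) (Filter.Eventually.of_forall hfX) Y hl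
      ((CV.exists_sub S fun j => form (h j) (Y z) = 0).mp hj)
    rwa [← CV.sum_sub S fun j => analyticOrderAt (fun z => form (h j) (Y z)) z] at h4)
  apply hz
  obtain ⟨a, ha⟩ := hconst z₁ z₂
  obtain ⟨h4, e1⟩ := hYg z₁
  obtain ⟨h5, e2⟩ := hYg z₂
  rw [e1, e2, Projectivization.mk_eq_mk_iff']
  exact ⟨a, ha.symm⟩

lemma regularOn_mono {m n : ℕ} {X X' : Set (PSpace m)} {φ : PSpace m → PSpace n}
    (hφ : IsRegularOn X φ) (hX : X' ⊆ X) : IsRegularOn X' φ := by
  intro x hx
  obtain ⟨e, π, h1, h2, h3⟩ := hφ x (hX hx)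
  exact ⟨e, π, h1, h2, fun y hy => h3 y (hX hy)⟩

/-- the strong form -/
lemma strong {m n d N k μ : ℕ} (hn : 1 ≤ n) (hd : 1 ≤ d) (hk : 1 ≤ k) (hμ : k < μ * (k - 1))
    {h : Fin N → Exponent n d → ℂ}
    (hmain : ∀ S : Finset (Fin N), bound n k ≤ S.card → HasSMT k h S)
    (hcard : ∀ y : Fin (n + 1) → ℂ, y ≠ 0 → {j | form (h j) y = 0}.ncard ≤ n)
    (hN : bound n k + n ≤ N) {X : Set (PSpace m)} {φ : PSpace m → PSpace n}
    (hφ : IsRegularOn X φ)
    (hr : ∀ J : Finset (Fin N), J.card < n → ∃ S : Finset (Fin N), Disjoint S J ∧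
      bound n k ≤ S.card ∧
      MeetsUnionWithOrder μ {x ∈ X | ∀ j ∈ J, form (h j) (φ x).rep = 0} φ h S) :
    CurvesDegenerate X φ ∅ := by
  classical
  have hpos : 1 ≤ bound n k := by
    have h1 : 1 ≤ n ^ 10 := Nat.one_le_pow _ _ hn
    have h2 : 1 ≤ k ^ 5 := Nat.one_le_pow _ _ hk
    exact Nat.mul_pos (Nat.mul_pos (by norm_num) h1) h2
  apply degenerate_of
  intro f hf hfX
  left
  obtain ⟨J, hJ⟩ : ∃ J : Finset (Fin N), J = Finset.univ.filter fun j =>
    ∀ z, form (h j) (φ (f z)).rep = 0 := ⟨_, rfl⟩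
  have hJmem : ∀ j, j ∈ J ↔ ∀ z, form (h j) (φ (f z)).rep = 0 := fun j => by
    rw [hJ, Finset.mem_filter]
    simp
  have hJcard : J.card ≤ n := by
    refine le_trans ?_ (hcard (φ (f 0)).rep (Projectivization.rep_nonzero _))
    rw [← Set.ncard_coe_finset]
    refine Set.ncard_le_ncard ?_ (Set.toFinite _)
    intro j hj
    exact (hJmem j).mp hj 0
  have hfJ : ∀ z, f z ∈ {x ∈ X | ∀ j ∈ J, form (h j) (φ x).rep = 0} := fun z =>
    ⟨hfX z, fun j hj => (hJmem j).mp hj z⟩
  have hsub : {x ∈ X | ∀ j ∈ J, form (h j) (φ x).rep = 0} ⊆ X := fun x hx => hx.1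
  obtain ⟨S, hSJ, hS, hSr⟩ : ∃ S : Finset (Fin N), Disjoint S J ∧
      bound n k ≤ S.card ∧
      MeetsUnionWithOrder μ {x ∈ X | ∀ j ∈ J, form (h j) (φ x).rep = 0} φ h S := by
    rcases lt_or_eq_of_le hJcard with h1 | h1
    · exact hr J h1
    · refine ⟨Jᶜ, disjoint_compl_left, ?_, ?_⟩
      · rw [Finset.card_compl, Fintype.card_fin]
        omega
      · intro γ z₀ hγ hγX G hG hex
        exfalso
        obtain ⟨h2, h3⟩ := hG.2.self_of_nhds
        obtain ⟨j, hj, hj0⟩ := hex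
        have h4 := hcard (G z₀) h2
        have h5 : ((insert j J : Finset (Fin N)) : Set (Fin N)) ⊆
            {j | form (h j) (G z₀) = 0} := by
          intro i hi
          rcases Finset.mem_insert.mp hi with h6 | h6
          · rw [h6]
            exact hj0
          · exact (rep_zero h h2 h3 i).mp (hγX.self_of_nhds.2 i h6)
        have h6 := (Set.ncard_le_ncard h5 (Set.toFinite _)).trans h4
        rw [Set.ncard_coe_finset, Finset.card_insert_of_notMem (Finset.mem_compl.mp hj)] at h6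
        omega
  rcases degenerate hd hk hμ (hpos.trans hS) (hmain S hS) (regularOn_mono hφ hsub) hSr f hf hfJ
    with h1 | ⟨j, hj, h1⟩
  · exact h1
  · exact absurd ((hJmem j).mpr h1) (Finset.disjoint_left.mp hSJ hj)

theorem result {n d N k : ℕ} (hn : 1 ≤ n) (hd : 1 ≤ d) (hk : 1 ≤ k) :
    ∃ Θ : MvPolynomial (Fin N × Exponent n d) ℂ, Θ ≠ 0 ∧
      ∀ h : Fin N → Exponent n d → ℂ,
        eval (fun x : Fin N × Exponent n d => h x.1 x.2) Θ ≠ 0 →
        (∀ S : Finset (Fin N), bound n k ≤ S.card →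
          (∀ Y : ℂ → Fin (n + 1) → ℂ, Differentiable ℂ Y → (∀ z, Y z ≠ 0) →
            (∃ z w, ∀ a : ℂ, Y z ≠ a • Y w) →
            ∃ (C : ℝ) (E : Set ℝ), MeasureTheory.volume E < ⊤ ∧ ∀ r : ℝ, 1 ≤ r → r ∉ E →
              (1 - 1 / (k : ℝ)) * S.card * d * characteristic Y r ≤ countOnce h S Y r +
                C * (Real.log r + Real.posLog (characteristic Y r) + 1)) ∧
          ∀ (m μ : ℕ) (X : Set (PSpace m)) (φ : PSpace m → PSpace n), k < μ * (k - 1) →
            (IsRegularOn X φ ∧ MeetsUnionWithOrder μ X φ h S) ∨ ProductIsPower μ X φ h S →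
            CurvesDegenerate X φ {x ∈ X | ∃ j ∈ S, form (h j) (φ x).rep = 0}) ∧
        (bound n k + n ≤ N → ∀ (m μ : ℕ) (X : Set (PSpace m)) (φ : PSpace m → PSpace n),
          k < μ * (k - 1) → IsRegularOn X φ →
          (∀ J : Finset (Fin N), J.card < n → ∃ S : Finset (Fin N), Disjoint S J ∧
            bound n k ≤ S.card ∧
            (MeetsUnionWithOrder μ {x ∈ X | ∀ j ∈ J, form (h j) (φ x).rep = 0} φ h S ∨
              ProductIsPower μ {x ∈ X | ∀ j ∈ J, form (h j) (φ x).rep = 0} φ h S)) →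
          CurvesDegenerate X φ ∅) ∧
        ∀ x : PSpace n, {j | form (h j) x.rep = 0}.ncard ≤ n := by
  classical
  obtain ⟨Θ₁, hΘ₁, h1⟩ := CV.once_smt_sub (n := n) (d := d) (N := N) hn hd hk
  obtain ⟨Θ₂, hΘ₂, h2⟩ := CV.card_zero (n := n) (d := d) (N := N) hd
  have hpos : 1 ≤ bound n k := by
    have h1 : 1 ≤ n ^ 10 := Nat.one_le_pow _ _ hn
    have h2 : 1 ≤ k ^ 5 := Nat.one_le_pow _ _ hk
    exact Nat.mul_pos (Nat.mul_pos (by norm_num) h1) h2
  refine ⟨Θ₁ * Θ₂, mul_ne_zero hΘ₁ hΘ₂, ?_⟩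
  intro h hh
  rw [map_mul] at hh
  have hmain : ∀ S : Finset (Fin N), bound n k ≤ S.card → HasSMT k h S := fun S hS =>
    h1 h (left_ne_zero_of_mul hh) S hS
  have hcard : ∀ y : Fin (n + 1) → ℂ, y ≠ 0 → {j | form (h j) y = 0}.ncard ≤ n :=
    h2 h (right_ne_zero_of_mul hh)
  refine ⟨fun S hS => ⟨?_, ?_⟩, ?_, fun x => hcard _ (Projectivization.rep_nonzero _)⟩
  · intro Y hY h0 hnc
    obtain ⟨C, E, -, hE, hC⟩ := hmain S hS Y hY h0 (by
      intro hc
      obtain ⟨z, w, hzw⟩ := hnc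
      obtain ⟨a, ha⟩ := hc z w
      exact hzw a ha)
    refine ⟨C, E, hE, fun r hr hrE => ?_⟩
    rw [← count_meets h S hY hr]
    exact hC r hr hrE
  · intro m μ X φ hμ hX
    obtain ⟨hφ, hmeet⟩ : IsRegularOn X φ ∧ MeetsUnionWithOrder μ X φ h S := by
      rcases hX with hX | hX
      · exact hX
      · exact product_meets hX
    apply degenerate_of
    intro f hf hfX
    rcases degenerate hd hk hμ (hpos.trans hS) (hmain S hS) hφ hmeet f hf hfX with
      h3 | ⟨j, hj, h3⟩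
    · exact Or.inl h3
    · exact Or.inr fun z => ⟨hfX z, j, hj, h3 z⟩
  · intro hN m μ X φ hμ hφ hr
    refine strong hn hd hk hμ hmain hcard hN hφ fun J hJ => ?_
    obtain ⟨S, hS1, hS2, hS3 | hS3⟩ := hr J hJ
    · exact ⟨S, hS1, hS2, hS3⟩
    · exact ⟨S, hS1, hS2, (product_meets hS3).2⟩

end Pool.Agent.Results.MP_8d161d_ag.DoubleCovers
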