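import Mathlib
import Pool.Agent.Lib.MP_8d161d_ag.Defs
import Pool.Agent.Lib.MP_8d161d_ag.CiNum

/-!
General complete intersections of high codimension in projective space contain no entire curves,
whatever their multidegree.
-/

open MvPolynomial Pool.Agent.Lib.GGL Pool.Agent.Lib.GGL.CI

namespace Pool.Agent.Results.MP_8d161d_ag.GeneralCompleteIntersections

/-- For all `c` complex forms `g i` in `n + c + 1` variables, of degrees `d i`, whose coefficients
are outside of a hypersurface `Θ = 0`, defined over `ℚ`, of the space of all coefficients, every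
holomorphic map from `ℂ` to the intersection in `P^{n+c}` of the `c` hypersurfaces `g i = 0` is
constant. -/
def NoEntireCurves (n : ℕ) {c : ℕ} (d : Fin c → ℕ) : Prop :=
  ∃ Θ : MvPolynomial (Σ i : Fin c, {μ : Fin (n + c + 1) →₀ ℕ // μ.degree = d i}) ℚ, Θ ≠ 0 ∧
    ∀ g : Fin c → MvPolynomial (Fin (n + c + 1)) ℂ, (∀ i, (g i).IsHomogeneous (d i)) →
      aeval (fun x : Σ i : Fin c, {μ : Fin (n + c + 1) →₀ ℕ // μ.degree = d i} =>
        coeff x.2.1 (g x.1)) Θ ≠ 0 →
      ∀ f : ℂ → PSpace (n + c), (∀ z, HolomorphicNear f z) →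
        (∀ z i, eval (f z).rep (g i) = 0) → ∀ z w, f z = f w

/-- No entire curves in general complete intersections of dimension `n` and codimension `c` in
projective space, whose degrees are all at least `D`, if `D ^ (c - 5 n) ≥ 2 ^ (66 n)`, that is if
`c ≥ (5 + 66 / log₂ D) n`. In particular there is no condition on the degrees (except that they are
at least `2`) if `c ≥ 71 n`. -/
theorem result {n c D : ℕ} (hn : 1 ≤ n) (hc : 2 ^ (66 * n) ≤ D ^ (c - 5 * n)) {d : Fin c → ℕ}
    (hd : ∀ i, D ≤ d i) : NoEntireCurves n d := by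
  have h66 : 1 < 2 ^ (66 * n) := Nat.one_lt_two_pow (by omega)
  have hcn : 5 * n < c := by
    by_contra hcon
    have h1 : c - 5 * n = 0 := by omega
    rw [h1, pow_zero] at hc
    omega
  have hD : 2 ≤ D := by
    by_contra hcon
    have h1 : D ^ (c - 5 * n) ≤ 1 := pow_le_one' (n := c - 5 * n) (a := D) (by omega)
    omega
  obtain ⟨k, rfl⟩ : ∃ k, c = k + (2 * n - 1) := ⟨c - (2 * n - 1), by omega⟩
  have hnum := num_general (n := 3 * n - 1) (k := k) (D := D) (by omega) (by omega) hD (by
    calc 2 ^ (22 * (3 * n - 1)) ≤ 2 ^ (66 * n) := Nat.pow_le_pow_right (by norm_num) (by omega)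
      _ ≤ D ^ (k + (2 * n - 1) - 5 * n) := hc
      _ ≤ _ := Nat.pow_le_pow_right (by omega) (by omega))
  obtain ⟨Θ, h1, h2⟩ := exists_exceptional (m := n + (k + (2 * n - 1))) (d := d)
    (fun i => hD.trans (hd i)) hn (by rw [Fintype.card_fin]; omega)
    (by rw [Fintype.card_fin]; omega)
    (numCond_of hn hD hd (by omega) (Fintype.card_fin _) (by rw [Fintype.card_fin]; omega) hnum)
  refine ⟨Θ, h1, fun g hg hΘ f hf hfX => h2 _ hΘ f hf fun z i => ?_⟩
  rw [← hfX z i]
  congr 1
  ext μ
  by_cases hμ : μ.degree = d i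
  · exact coeff_gp _ i ⟨μ, hμ⟩
  · rw [(hg i).coeff_eq_zero hμ, (gp_hom _ i).coeff_eq_zero hμ]

end Pool.Agent.Results.MP_8d161d_ag.GeneralCompleteIntersections
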