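import Mathlib
import Pool.Agent.Lib.MP_8d161d_ag.Defs
import Pool.Agent.Lib.MP_8d161d_ag.Top
import Pool.Agent.Lib.MP_8d161d_ag.SM.W2
import Pool.Agent.Lib.MP_8d161d_ag.LD.S3

/-!
Totally ramified general hypersurfaces of entire curves in projective varieties, and entire curves
in varieties that are ramified over general hypersurface sections of an arbitrary projective
variety.

Let `V` be a closed subset of `P^M` of dimension at most `n` and let `H_j` be finitely many general
hypersurfaces of `P^M` of degree `d ≥ 1`. Then for every non-constant holomorphic curve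
`g : ℂ → V` fewer than `22 n + 32` of the `H_j` are totally ramified: `g` meets them only with
multiplicities at least `2`, or not at all, or is contained in them. Hence, for every regular map
`φ : X → V` which is ramified over at least `22 n + 32` of the sections `V ∩ H_j`, the curve
`φ ∘ f` is constant for every entire curve `f` in `X`.
-/

open MvPolynomial Filter Topology Pool.Agent.Lib.GGL

namespace Pool.Agent.Results.MP_8d161d_ag.GeneralSections

/-- A homogeneous ideal: it contains the homogeneous components of its members. -/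
def IsHomogeneousIdeal {M : ℕ} (I : Ideal (MvPolynomial (Fin (M + 1)) ℂ)) : Prop :=
  ∀ g ∈ I, ∀ k, homogeneousComponent k g ∈ I

/-- The closed subset of `P^M` defined by `I`. -/
def zeroSet {M : ℕ} (I : Ideal (MvPolynomial (Fin (M + 1)) ℂ)) : Set (PSpace M) :=
  {x | ∀ g ∈ I, eval x.rep g = 0}

/-- The exponents of the monomials of degree `d` in `M + 1` variables. -/
abbrev Exponent (M d : ℕ) : Type := {t : Fin (M + 1) → Fin (d + 1) // ∑ i, (t i : ℕ) = d}

/-- The value at `y` of the form of degree `d` in `M + 1` variables with the coefficients `q`. -/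
noncomputable def form {M d : ℕ} (q : Exponent M d → ℂ) (y : Fin (M + 1) → ℂ) : ℂ :=
  ∑ t, q t * ∏ i, y i ^ (t.1 i : ℕ)

/-- The curve `g` meets the hypersurface `form q = 0` only with multiplicities at least two
(possibly infinite) or not at all: for every local holomorphic lift `G` of `g` the order of
vanishing of `form q G` is `0` or at least `2`. -/
def TotallyRamified {M d : ℕ} (g : ℂ → PSpace M) (q : Exponent M d → ℂ) : Prop :=
  ∀ (z₀ : ℂ) (G : ℂ → Fin (M + 1) → ℂ), IsLift g G z₀ →
    analyticOrderAt (fun z => form q (G z)) z₀ = 0 ∨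
      2 ≤ analyticOrderAt (fun z => form q (G z)) z₀

/-- `φ` is ramified on `X` over the hypersurface `form q = 0`: every holomorphic arc in `X` meets
the pull-back of the hypersurface with multiplicity `0` or at least `2` (possibly infinite). -/
def IsRamifiedOver {m M d : ℕ} (X : Set (PSpace m)) (φ : PSpace m → PSpace M)
    (q : Exponent M d → ℂ) : Prop :=
  ∀ (γ : ℂ → PSpace m) (z₀ : ℂ), HolomorphicNear γ z₀ → (∀ᶠ z in 𝓝 z₀, γ z ∈ X) →
    ∀ G : ℂ → Fin (M + 1) → ℂ, IsLift (fun z => φ (γ z)) G z₀ →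
      analyticOrderAt (fun z => form q (G z)) z₀ = 0 ∨
        2 ≤ analyticOrderAt (fun z => form q (G z)) z₀

theorem result {M n d N : ℕ} (hd : 1 ≤ d)
    (I : Ideal (MvPolynomial (Fin (M + 1)) ℂ)) (hI : IsHomogeneousIdeal I)
    (hdim : Algebra.trdeg ℂ (MvPolynomial (Fin (M + 1)) ℂ ⧸ I) ≤ (n + 1 : ℕ)) :
    ∃ Θ : MvPolynomial (Fin N × Exponent M d) ℂ, Θ ≠ 0 ∧
      ∀ h : Fin N → Exponent M d → ℂ,
        eval (fun x : Fin N × Exponent M d => h x.1 x.2) Θ ≠ 0 →
        (∀ g : ℂ → PSpace M, (∀ z, HolomorphicNear g z) → (∀ z, g z ∈ zeroSet I) →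
          (∃ z w, g z ≠ g w) → {j | TotallyRamified g (h j)}.ncard < 22 * n + 32) ∧
        ∀ (m : ℕ) (X : Set (PSpace m)) (φ : PSpace m → PSpace M), IsRegularOn X φ →
          (∀ x ∈ X, φ x ∈ zeroSet I) → 22 * n + 32 ≤ {j | IsRamifiedOver X φ (h j)}.ncard →
          ∀ f : ℂ → PSpace m, (∀ z, HolomorphicNear f z) → (∀ z, f z ∈ X) →
            (∀ z w, φ (f z) = φ (f w)) ∧
            ∀ Y : Set (PSpace m), (∀ x ∈ X, x ∉ Y → {y ∈ X | φ y = φ x}.Finite) →
              (∃ z w, f z ≠ f w) → ∀ z, f z ∈ Y := by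
  classical
  obtain ⟨Θ, hΘ, hmain⟩ := LD.ramified_forms (n := n) (N := N) hd I hdim
  refine ⟨Θ, hΘ, ?_⟩
  intro h hh
  have hcurve : ∀ g : ℂ → PSpace M, (∀ z, HolomorphicNear g z) → (∀ z, g z ∈ zeroSet I) →
      22 * n + 32 ≤ {j | TotallyRamified g (h j)}.ncard → ∀ z w, g z = g w := by
    intro g hg hgV hcard
    obtain ⟨S, hS⟩ : ∃ S : Finset (Fin N), S = Finset.univ.filter fun j =>
      TotallyRamified g (h j) := ⟨_, rfl⟩
    have hScard : 22 * n + 32 ≤ S.card := by
      refine hcard.trans (le_of_eq ?_)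
      rw [← Set.ncard_coe_finset, hS]
      congr 1
      ext j
      simp
    obtain ⟨Y, hY, hYg⟩ := SM.exists_reduced hg
    have h0 : ∀ z, Y z ≠ 0 := fun z => (hYg z).1
    have hYI : ∀ z (a : ℂ), ∀ F ∈ I, eval (a • Y z) F = 0 := by
      intro z
      obtain ⟨g3, g4⟩ := hYg z
      have h6 := hgV z
      rw [g4] at h6
      obtain ⟨v, hv⟩ := (Projectivization.mk_eq_mk_iff ℂ _ _
        (Projectivization.rep_nonzero _) g3).mp
          (Projectivization.mk_rep (Projectivization.mk ℂ (Y z) g3))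
      intro a
      have h7 : a • Y z = (a * ((v⁻¹ : ℂˣ) : ℂ)) • (Projectivization.mk ℂ (Y z) g3).rep := by
        have h8 : Y z = (v⁻¹ : ℂˣ) • (Projectivization.mk ℂ (Y z) g3).rep := by
          rw [← hv, smul_smul, inv_mul_cancel, one_smul]
        conv_lhs => rw [h8]
        rw [mul_smul]
        rfl
      rw [h7]
      exact eval_smul_mem_zero hI h6 _
    have hconst := hmain h hh S hScard Y hY h0 hYI fun j hj z₁ => by
      rw [hS, Finset.mem_filter] at hj
      exact hj.2 z₁ Y ⟨hY.analyticAt z₁, Filter.Eventually.of_forall fun w => hYg w⟩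
    intro z w
    obtain ⟨a, ha⟩ := hconst z w
    obtain ⟨g1, g2⟩ := hYg z
    obtain ⟨g3, g4⟩ := hYg w
    rw [g2, g4, Projectivization.mk_eq_mk_iff']
    exact ⟨a, ha.symm⟩
  refine ⟨fun g hg hgV ⟨z, w, hzw⟩ => ?_, ?_⟩
  · by_contra hcon
    exact hzw (hcurve g hg hgV (not_lt.mp hcon) z w)
  intro m X φ hφ hφV hram f hf hfX
  have h1 : ∀ z w, φ (f z) = φ (f w) :=
    hcurve (fun z => φ (f z))
      (fun z => holomorphicNear_comp hφ (hf z) (Filter.Eventually.of_forall hfX))
      (fun z => hφV _ (hfX z))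
      (hram.trans (Set.ncard_le_ncard (fun j hj z₀ G hG =>
        hj f z₀ (hf z₀) (Filter.Eventually.of_forall hfX) G hG) (Set.toFinite _)))
  refine ⟨h1, ?_⟩
  intro Y hY hne z
  by_contra hz
  obtain ⟨w₁, w₂, hw⟩ := hne
  apply hw
  apply const_of_finite hf
  apply (hY (f z) (hfX z) hz).subset
  rintro _ ⟨w, rfl⟩
  exact ⟨hfX w, h1 w z⟩

end Pool.Agent.Results.MP_8d161d_ag.GeneralSections
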