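import Mathlib
import Pool.Agent.Lib.MP_8d161d_ag.Defs
import Pool.Agent.Lib.MP_8d161d_ag.Top
import Pool.Agent.Lib.MP_8d161d_ag.Cover
import Pool.Agent.Lib.MP_8d161d_ag.SM.W2
import Pool.Agent.Lib.MP_8d161d_ag.LD.V1
import Pool.Agent.Lib.MP_8d161d_ag.LD.G1

/-!
A second main theorem with truncation level one, in the form of a defect relation, for general
hypersurface sections of an arbitrary projective variety, and the Green-Griffiths-Lang conjecture
for varieties that are partially ramified over them.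

Let `V` be a closed subset of `P^M` of dimension at most `n`, let `w ≥ 2`, `d ≥ 1` and
`L = 25 w² (⌈log₂ w⌉ + 6) (n + 1)`. For `N` general forms `h j` of degree `d` and every non-constant
entire curve in `V`, degenerate or not, `(1 - 1 / w) |S| d T(r) ≤ ∑ j ∈ S, N₁(r, h j) + small` for
all families `S` of at least `L` of the forms; so at each `r` fewer than `L` of the forms that do
not vanish on the curve have `N₁(r, h j) < (1 - 1 / w) d T(r) - small`.

Let `φ : X → V` be a regular map which is partially ramified over the hypersurfaces `h j = 0`,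
`j ∈ S`, where `S` has at least `L` members, for example a cyclic cover `W ^ μ = ∏ h j` with
`w n < (w - 1) μ`. Then for every entire curve `f` in `X` the curve `φ ∘ f` is constant or lies in
the union of these hypersurfaces. If there are `n` disjoint such families `S`, for example if `X`
is given by `n` equations `W_i ^ μ = ∏ h j`, `j ∈ S_i`, then `φ ∘ f` is constant.
-/

open MvPolynomial Filter Topology Pool.Agent.Lib.GGL

namespace Pool.Agent.Results.MP_8d161d_ag.LinearDefect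

/-- A homogeneous ideal: it contains the homogeneous components of its members. -/
def IsHomogeneousIdeal {M : ℕ} (I : Ideal (MvPolynomial (Fin (M + 1)) ℂ)) : Prop :=
  ∀ g ∈ I, ∀ k, homogeneousComponent k g ∈ I

/-- The closed subset of `P^M` defined by `I`. -/
def zeroSet {M : ℕ} (I : Ideal (MvPolynomial (Fin (M + 1)) ℂ)) : Set (PSpace M) :=
  {x | ∀ g ∈ I, eval x.rep g = 0}

/-- The exponents of the monomials of degree `d` in `M + 1` variables. -/
abbrev Exponent (M d : ℕ) : Type := {t : Fin (M + 1) → Fin (d + 1) // ∑ i, (t i : ℕ) = d}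

/-- The value at `y` of the form of degree `d` in `M + 1` variables with the coefficients `q`. -/
noncomputable def form {M d : ℕ} (q : Exponent M d → ℂ) (y : Fin (M + 1) → ℂ) : ℂ :=
  ∑ t, q t * ∏ i, y i ^ (t.1 i : ℕ)

/-- The Nevanlinna characteristic `T(r)` of the entire curve with reduced representation `Y`: the
mean value of `log ‖Y‖` (maximum norm) on the circle `|z| = r`. -/
noncomputable def characteristic {M : ℕ} (Y : ℂ → Fin (M + 1) → ℂ) (r : ℝ) : ℝ :=
  Real.circleAverage (fun z => Real.log ‖Y z‖) 0 r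

/-- The counting function of the zeros of `g` with truncation level one: the sum of
`log (r / |z|)` over the zeros `z` of `g` with `0 < |z| ≤ r`, each counted once, plus `log r` if
`g 0 = 0`. -/
noncomputable def truncatedCount (g : ℂ → ℂ) (r : ℝ) : ℝ :=
  (∑ᶠ z ∈ {z : ℂ | g z = 0 ∧ z ≠ 0 ∧ ‖z‖ ≤ r}, Real.log (r / ‖z‖)) +
    (open Classical in if g 0 = 0 then Real.log r else 0)

/-- `25 w² (⌈log₂ w⌉ + 6) (n + 1)`. -/
def bound (w n : ℕ) : ℕ := 25 * w ^ 2 * (Nat.clog 2 w + 6) * (n + 1)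

/-- `σ` is a holomorphic section of `φ^* O(b)` on `X` that vanishes along every holomorphic arc in
`X` at every point with order at least `s` times the number of the hypersurfaces `form (h j) = 0`,
`j ∈ S`, that the image of the arc meets there. Its value `σ x y` at a point `x` of `X` depends on
homogeneous coordinates `y` of `φ x`, with `σ x (λ y) = λ ^ b σ x y`, it is bounded, and it is
holomorphic along the holomorphic arcs in `X`. -/
def IsVanishingSection {m M d N : ℕ} (s b : ℕ) (X : Set (PSpace m)) (φ : PSpace m → PSpace M)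
    (h : Fin N → Exponent M d → ℂ) (S : Finset (Fin N)) (σ : PSpace m → (Fin (M + 1) → ℂ) → ℂ) :
    Prop :=
  (∀ x ∈ X, ∀ a : ℂ, a ≠ 0 → σ x (a • (φ x).rep) = a ^ b * σ x (φ x).rep) ∧
  (∃ A : ℝ, ∀ x ∈ X, ‖σ x (φ x).rep‖ ≤ A * ‖(φ x).rep‖ ^ b) ∧
  ∀ (γ : ℂ → PSpace m) (z₀ : ℂ), HolomorphicNear γ z₀ → (∀ᶠ z in 𝓝 z₀, γ z ∈ X) →
    ∀ G : ℂ → Fin (M + 1) → ℂ, IsLift (fun z => φ (γ z)) G z₀ →
      AnalyticAt ℂ (fun z => σ (γ z) (G z)) z₀ ∧
      ((s * {j | j ∈ S ∧ form (h j) (G z₀) = 0}.ncard : ℕ) : ℕ∞) ≤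
        analyticOrderAt (fun z => σ (γ z) (G z)) z₀

/-- The ramification of `X` over the hypersurfaces `form (h j) = 0`, `j ∈ S`, for given `w` and
dimension `n` of the base: for some `a`, `c` with `w c < (w - 1) a` one of the following holds at
every point of every holomorphic arc in `X`. `a` times the number of the hypersurfaces that the
image of the arc meets there is at most `c` times the sum of the orders with which it meets them;
or `c = n` and this sum is at least `a`; or `c = n`, `a = n + 1` and one of these orders is at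
least two. -/
def PartlyRamified {m M d N : ℕ} (w n : ℕ) (X : Set (PSpace m)) (φ : PSpace m → PSpace M)
    (h : Fin N → Exponent M d → ℂ) (S : Finset (Fin N)) : Prop :=
  ∃ a c : ℕ, w * c < (w - 1) * a ∧
    ∀ (γ : ℂ → PSpace m) (z₀ : ℂ), HolomorphicNear γ z₀ → (∀ᶠ z in 𝓝 z₀, γ z ∈ X) →
      ∀ G : ℂ → Fin (M + 1) → ℂ, IsLift (fun z => φ (γ z)) G z₀ →
        ((a * {j | j ∈ S ∧ form (h j) (G z₀) = 0}.ncard : ℕ) : ℕ∞) ≤
          c * ∑ j ∈ S, analyticOrderAt (fun z => form (h j) (G z)) z₀ ∨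
        (c = n ∧ (a : ℕ∞) ≤ ∑ j ∈ S, analyticOrderAt (fun z => form (h j) (G z)) z₀) ∨
        (c = n ∧ a = n + 1 ∧ ∃ j ∈ S, 2 ≤ analyticOrderAt (fun z => form (h j) (G z)) z₀)

/-- The conclusion of the conjecture for `φ : X → P^M`, with the exceptional set `B`: for every
entire curve `f` in `X` the curve `φ ∘ f` is constant or `f` lies in `B`; hence every non-constant
entire curve in `X` lies in `Z` if `Z` contains `B` and all points of `X` on infinite fibres
of `φ`. -/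
def CurvesDegenerate {m M : ℕ} (X : Set (PSpace m)) (φ : PSpace m → PSpace M)
    (B : Set (PSpace m)) : Prop :=
  (∀ f : ℂ → PSpace m, (∀ z, HolomorphicNear f z) → (∀ z, f z ∈ X) →
    (∀ z w, φ (f z) = φ (f w)) ∨ ∀ z, f z ∈ B) ∧
  ∀ Z : Set (PSpace m), B ⊆ Z → (∀ x ∈ X, ¬ {y ∈ X | φ y = φ x}.Finite → x ∈ Z) →
    ∀ f : ℂ → PSpace m, (∀ z, HolomorphicNear f z) → (∀ z, f z ∈ X) → (∃ z w, f z ≠ f w) →
      ∀ z, f z ∈ Z

lemma rep_smul {M : ℕ} {y : Fin (M + 1) → ℂ} (h : y ≠ 0) :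
    ∃ c : ℂ, c ≠ 0 ∧ (Projectivization.mk ℂ y h).rep = c • y := by
  obtain ⟨v, hv⟩ := (Projectivization.mk_eq_mk_iff ℂ _ _
    (Projectivization.rep_nonzero _) h).mp
      (Projectivization.mk_rep (Projectivization.mk ℂ y h))
  exact ⟨(v : ℂ), v.ne_zero, by rw [← hv]; rfl⟩

lemma form_smul {M d : ℕ} (q : Exponent M d → ℂ) (c : ℂ) (y : Fin (M + 1) → ℂ) :
    form q (c • y) = c ^ d * form q y := by
  unfold form
  rw [Finset.mul_sum]
  refine Finset.sum_congr rfl fun t _ => ?_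
  have h1 : ∏ i, (c • y) i ^ (t.1 i : ℕ) = c ^ d * ∏ i, y i ^ (t.1 i : ℕ) := by
    have h2 : c ^ d = ∏ i, c ^ (t.1 i : ℕ) := by
      rw [Finset.prod_pow_eq_pow_sum]
      exact congrArg (fun e => c ^ e) t.2.symm
    rw [h2, ← Finset.prod_mul_distrib]
    refine Finset.prod_congr rfl fun i _ => ?_
    rw [Pi.smul_apply, smul_eq_mul, mul_pow]
  rw [h1]
  ring

lemma mem_zeroSet {M : ℕ} {I : Ideal (MvPolynomial (Fin (M + 1)) ℂ)} (hI : IsHomogeneousIdeal I)
    {y : Fin (M + 1) → ℂ} (h : y ≠ 0) (hy : Projectivization.mk ℂ y h ∈ zeroSet I) (a : ℂ) :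
    ∀ G ∈ I, eval (a • y) G = 0 := by
  obtain ⟨c, hc, hrep⟩ := rep_smul h
  have h1 := eval_smul_mem_zero hI hy (a * c⁻¹)
  intro G hG
  have h2 := h1 G hG
  rwa [hrep, smul_smul, mul_assoc, inv_mul_cancel₀ hc, mul_one] at h2

/-- the section of a curve -/
lemma section_rep {m M d N s b : ℕ} {X : Set (PSpace m)} {φ : PSpace m → PSpace M}
    {p : Fin N → Exponent M d → ℂ} {S : Finset (Fin N)} {σ : PSpace m → (Fin (M + 1) → ℂ) → ℂ}
    (hσ : IsVanishingSection s b X φ p S σ) {x : PSpace m} (hx : x ∈ X)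
    {y : Fin (M + 1) → ℂ} (h : y ≠ 0) (hy : φ x = Projectivization.mk ℂ y h) :
    ∃ a : ℂ, a ≠ 0 ∧ y = a • (φ x).rep ∧ σ x y = a ^ b * σ x (φ x).rep := by
  obtain ⟨c, hc, hrep⟩ := rep_smul h
  have h1 : y = c⁻¹ • (φ x).rep := by
    rw [hy, hrep, smul_smul, inv_mul_cancel₀ hc, one_smul]
  refine ⟨c⁻¹, inv_ne_zero hc, h1, ?_⟩
  rw [← hσ.1 x hx c⁻¹ (inv_ne_zero hc), ← h1]

lemma section_bound {m M d N s b : ℕ} {X : Set (PSpace m)} {φ : PSpace m → PSpace M}
    {p : Fin N → Exponent M d → ℂ} {S : Finset (Fin N)} {σ : PSpace m → (Fin (M + 1) → ℂ) → ℂ}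
    (hσ : IsVanishingSection s b X φ p S σ) :
    ∃ A : ℝ, ∀ x ∈ X, ∀ (y : Fin (M + 1) → ℂ) (h : y ≠ 0), φ x = Projectivization.mk ℂ y h →
      ‖σ x y‖ ≤ A * ‖y‖ ^ b := by
  obtain ⟨A, hA⟩ := hσ.2.1
  refine ⟨A, fun x hx y h hy => ?_⟩
  obtain ⟨a, ha, hya, h1⟩ := section_rep hσ hx h hy
  rw [h1, norm_mul, norm_pow]
  have h2 : ‖y‖ = ‖a‖ * ‖(φ x).rep‖ := by
    rw [← norm_smul, ← hya]
  rw [h2, mul_pow]
  have h3 := hA x hx
  have h4 : 0 ≤ ‖a‖ ^ b := by positivity
  nlinarith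

lemma degenerate_of {m M : ℕ} {X : Set (PSpace m)} {φ : PSpace m → PSpace M}
    {B : Set (PSpace m)} (hcurve : ∀ f : ℂ → PSpace m, (∀ z, HolomorphicNear f z) →
      (∀ z, f z ∈ X) → (∀ z w, φ (f z) = φ (f w)) ∨ ∀ z, f z ∈ B) : CurvesDegenerate X φ B := by
  refine ⟨hcurve, ?_⟩
  intro Z hB hZ f hf hfX ⟨w₁, w₂, hw⟩ z
  rcases hcurve f hf hfX with h3 | h3
  · by_contra hz
    apply hw
    apply const_of_finite hf
    have h5 : {y ∈ X | φ y = φ (f z)}.Finite := by
      by_contra h6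
      exact hz (hZ _ (hfX z) h6)
    apply h5.subset
    rintro _ ⟨w, rfl⟩
    exact ⟨hfX w, h3 w z⟩
  · exact hB (h3 z)

/-- the criterion -/
lemma criterion {m M n d N w : ℕ} (hw : 2 ≤ w) {I : Ideal (MvPolynomial (Fin (M + 1)) ℂ)}
    (hI : IsHomogeneousIdeal I) {h : Fin N → Exponent M d → ℂ}
    (hsmt : ∀ Y : ℂ → Fin (M + 1) → ℂ, Differentiable ℂ Y → (∀ z, Y z ≠ 0) → ¬ SM.IsConst Y →
        (∀ z (a : ℂ), ∀ G ∈ I, eval (a • Y z) G = 0) →
        ∃ (C : ℝ) (E : Set ℝ), 0 ≤ C ∧ MeasureTheory.volume E < ⊤ ∧ ∀ r : ℝ, 1 ≤ r → r ∉ E →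
          ∀ S : Finset (Fin N), LD.LL w n ≤ S.card →
            (1 - 1 / (w : ℝ)) * S.card * d * SM.height Y r ≤
              (∑ j ∈ S, open Classical in if ∃ z, CV.form (h j) (Y z) ≠ 0 then
                SM.count1 (fun z => CV.form (h j) (Y z)) r else 0) +
              C * (Real.log r + Real.posLog (SM.height Y r) + 1))
    {X : Set (PSpace m)} {φ : PSpace m → PSpace M} (hφ : IsRegularOn X φ)
    (hφV : ∀ x ∈ X, φ x ∈ zeroSet I) {S : Finset (Fin N)} (hS : LD.LL w n ≤ S.card)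
    {s b : ℕ} {σ : PSpace m → (Fin (M + 1) → ℂ) → ℂ} (hσ : IsVanishingSection s b X φ h S σ)
    (hnum : w * b < (w - 1) * (s * (S.card * d))) :
    CurvesDegenerate X φ
      {x ∈ X | (∃ j ∈ S, form (h j) (φ x).rep = 0) ∨ σ x (φ x).rep = 0} := by
  classical
  apply degenerate_of
  intro f hf hfX
  by_contra hcon
  push Not at hcon
  obtain ⟨⟨z₁, z₂, hz⟩, z₀, hz₀⟩ := hcon
  have hz₀' : (∀ j ∈ S, form (h j) (φ (f z₀)).rep ≠ 0) ∧ σ (f z₀) (φ (f z₀)).rep ≠ 0 := by
    constructor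
    · intro j hj h0
      exact hz₀ ⟨hfX z₀, Or.inl ⟨j, hj, h0⟩⟩
    · intro h0
      exact hz₀ ⟨hfX z₀, Or.inr h0⟩
  obtain ⟨Y, hY, hYg⟩ := SM.exists_reduced (g := fun z => φ (f z))
    (fun z => holomorphicNear_comp hφ (hf z) (Filter.Eventually.of_forall hfX))
  have h0 : ∀ z, Y z ≠ 0 := fun z => (hYg z).1
  have hl : ∀ z, IsLift (fun z => φ (f z)) Y z := fun z =>
    ⟨hY.analyticAt z, Filter.Eventually.of_forall fun w => hYg w⟩
  have hg : Differentiable ℂ fun z => σ (f z) (Y z) := fun z =>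
    (hσ.2.2 f z (hf z) (Filter.Eventually.of_forall hfX) Y (hl z)).1.differentiableAt
  obtain ⟨A, hA⟩ := section_bound hσ
  obtain ⟨h4, e1⟩ := hYg z₀
  obtain ⟨c, hc, hrep⟩ := rep_smul h4
  have hne : ∀ j ∈ S, ∃ z, CV.form (h j) (Y z) ≠ 0 := by
    intro j hj
    refine ⟨z₀, fun h3 => hz₀'.1 j hj ?_⟩
    rw [e1, hrep, form_smul]
    have h5 : form (h j) (Y z₀) = 0 := h3
    rw [h5, mul_zero]
  have hg0 : ∃ z, σ (f z) (Y z) ≠ 0 := by
    refine ⟨z₀, fun h3 => hz₀'.2 ?_⟩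
    obtain ⟨a, ha, -, h5⟩ := section_rep hσ (hfX z₀) h4 e1
    have h3' : σ (f z₀) (Y z₀) = 0 := h3
    rw [h5] at h3'
    exact (mul_eq_zero.mp h3').resolve_left (pow_ne_zero _ ha)
  have hYV : ∀ z (a : ℂ), ∀ G ∈ I, eval (a • Y z) G = 0 := by
    intro z a
    obtain ⟨h5, e2⟩ := hYg z
    apply mem_zeroSet hI h5
    rw [← e2]
    exact hφV _ (hfX z)
  have hconst := LD.const_of_section (h := h) (S := S) (s := s) (b := b) hw hY h0 hne hg hg0
    (fun z => hA (f z) (hfX z) (Y z) (hYg z).1 (hYg z).2) (by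
      intro z
      have h6 := (hσ.2.2 f z (hf z) (Filter.Eventually.of_forall hfX) Y (hl z)).2
      have h7 : analyticOrderAt (fun z => σ (f z) (Y z)) z =
          ((analyticOrderNatAt (fun z => σ (f z) (Y z)) z : ℕ) : ℕ∞) :=
        (Nat.cast_analyticOrderNatAt (SM.e4_order_ne_top hg hg0 z)).symm
      rw [h7, Nat.cast_le] at h6
      exact h6) hnum (by
      by_cases hce : SM.IsConst fun z => Y (Complex.exp z)
      · exfalso
        apply hz
        obtain ⟨a, ha⟩ := SM.isConst_of_exp hY h0 hce z₁ z₂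
        obtain ⟨h5, e2⟩ := hYg z₁
        obtain ⟨h6, e3⟩ := hYg z₂
        rw [e2, e3, Projectivization.mk_eq_mk_iff']
        exact ⟨a, ha.symm⟩
      · obtain ⟨C, E, hC, hE, h5⟩ := hsmt (fun z => Y (Complex.exp z))
          (hY.comp Complex.differentiable_exp) (fun z => h0 _) hce (fun z a => hYV _ a)
        exact ⟨C, E, hC, hE, fun r hr hrE => h5 r hr hrE S hS⟩)
  apply hz
  obtain ⟨a, ha⟩ := hconst z₁ z₂
  obtain ⟨h5, e2⟩ := hYg z₁
  obtain ⟨h6, e3⟩ := hYg z₂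
  rw [e2, e3, Projectivization.mk_eq_mk_iff']
  exact ⟨a, ha.symm⟩

lemma form_bound {M d : ℕ} (q : Exponent M d → ℂ) (y : Fin (M + 1) → ℂ) :
    ‖form q y‖ ≤ (∑ t, ‖q t‖) * ‖y‖ ^ d := by
  have h1 := CV.k4_norm_form_le q y
  rw [mul_comm]
  exact h1

lemma form_analyticAt {M d : ℕ} (q : Exponent M d → ℂ) {G : ℂ → Fin (M + 1) → ℂ} {z₀ : ℂ}
    (hG : AnalyticAt ℂ G z₀) : AnalyticAt ℂ (fun z => form q (G z)) z₀ := by
  unfold form
  refine Finset.analyticAt_fun_sum _ fun t _ => analyticAt_const.mul ?_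
  exact Finset.analyticAt_fun_prod _ fun i _ => ((analyticAt_pi_iff.mp hG) i).pow _

lemma order_prod {N n : ℕ} {g : Fin N → ℂ → ℂ} {z₀ : ℂ} (hg : ∀ j, AnalyticAt ℂ (g j) z₀)
    (S : Finset (Fin N)) : analyticOrderAt (fun z => ∏ j ∈ S, g j z ^ n) z₀ =
      n * ∑ j ∈ S, analyticOrderAt (g j) z₀ := by
  classical
  induction S using Finset.induction_on with
  | empty =>
    simp only [Finset.prod_empty, Finset.sum_empty, mul_zero]
    exact analyticAt_const.analyticOrderAt_eq_zero.mpr one_ne_zero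
  | insert a S ha ih =>
    have h1 : (fun z => ∏ j ∈ insert a S, g j z ^ n) =
        (g a ^ n) * fun z => ∏ j ∈ S, g j z ^ n := by
      funext z
      rw [Finset.prod_insert ha]
      rfl
    have h2 : AnalyticAt ℂ (fun z => ∏ j ∈ S, g j z ^ n) z₀ :=
      Finset.analyticAt_fun_prod _ fun j _ => (hg j).fun_pow n
    rw [h1, analyticOrderAt_mul ((hg a).pow n) h2, ih, analyticOrderAt_pow (hg a),
      Finset.sum_insert ha, mul_add, nsmul_eq_mul]

/-- one tangency increases the total order -/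
lemma order_ge_card {N : ℕ} {g : Fin N → ℂ → ℂ} {z₀ : ℂ} (hg : ∀ j, AnalyticAt ℂ (g j) z₀)
    {S : Finset (Fin N)} {j₀ : Fin N} (hj₀ : j₀ ∈ S) (h2 : 2 ≤ analyticOrderAt (g j₀) z₀) :
    (({j | j ∈ S ∧ g j z₀ = 0}.ncard + 1 : ℕ) : ℕ∞) ≤ ∑ j ∈ S, analyticOrderAt (g j) z₀ := by
  classical
  have h0 : g j₀ z₀ = 0 := by
    rw [← (hg j₀).analyticOrderAt_ne_zero]
    intro h3
    rw [h3] at h2
    exact absurd h2 (by norm_num)
  have h1 : ∀ j ∈ S, (if g j z₀ = 0 then (1 : ℕ∞) else 0) + (if j = j₀ then 1 else 0) ≤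
      analyticOrderAt (g j) z₀ := by
    intro j _
    by_cases hj : j = j₀
    · rw [hj, if_pos h0, if_pos rfl]
      exact h2
    · rw [if_neg hj, add_zero]
      split_ifs with h3
      · exact Order.one_le_iff_pos.mpr (pos_iff_ne_zero.mpr ((hg j).analyticOrderAt_ne_zero.mpr h3))
      · exact zero_le
  refine le_trans (le_of_eq ?_) (Finset.sum_le_sum h1)
  rw [Finset.sum_add_distrib, Finset.sum_ite_eq' S j₀, if_pos hj₀, Finset.sum_ite,
    Finset.sum_const_zero, add_zero, Finset.sum_const, nsmul_eq_mul, mul_one]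
  push_cast
  congr 2
  rw [← Set.ncard_coe_finset]
  congr 1
  ext j
  simp

/-- the product of the forms as a section -/
lemma product_section {m M d N a c : ℕ} {X : Set (PSpace m)} {φ : PSpace m → PSpace M}
    (h : Fin N → Exponent M d → ℂ) (S : Finset (Fin N))
    (hord : ∀ (γ : ℂ → PSpace m) (z₀ : ℂ), HolomorphicNear γ z₀ → (∀ᶠ z in 𝓝 z₀, γ z ∈ X) →
      ∀ G : ℂ → Fin (M + 1) → ℂ, IsLift (fun z => φ (γ z)) G z₀ →
        ((a * {j | j ∈ S ∧ form (h j) (G z₀) = 0}.ncard : ℕ) : ℕ∞) ≤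
          c * ∑ j ∈ S, analyticOrderAt (fun z => form (h j) (G z)) z₀) :
    IsVanishingSection a (c * (S.card * d)) X φ h S fun _ y => ∏ j ∈ S, form (h j) y ^ c := by
  refine ⟨?_, ⟨∏ j ∈ S, (∑ t, ‖h j t‖) ^ c, ?_⟩, ?_⟩
  · intro x _ a _
    have h1 : ∀ j ∈ S, form (h j) (a • (φ x).rep) ^ c =
        a ^ (c * d) * form (h j) (φ x).rep ^ c := by
      intro j _
      rw [form_smul, mul_pow, ← pow_mul, mul_comm d c]
    show ∏ j ∈ S, form (h j) (a • (φ x).rep) ^ c = a ^ (c * (S.card * d)) *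
      ∏ j ∈ S, form (h j) (φ x).rep ^ c
    rw [Finset.prod_congr rfl h1, Finset.prod_mul_distrib, Finset.prod_const, ← pow_mul]
    congr 2
    ring
  · intro x _
    have h2 : (‖(φ x).rep‖ ^ (c * (S.card * d)) : ℝ) = ∏ _j ∈ S, (‖(φ x).rep‖ ^ d) ^ c := by
      rw [Finset.prod_const, ← pow_mul, ← pow_mul]
      congr 1
      ring
    rw [h2, norm_prod, ← Finset.prod_mul_distrib]
    refine Finset.prod_le_prod (fun j _ => norm_nonneg _) fun j _ => ?_
    rw [norm_pow, ← mul_pow]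
    exact pow_le_pow_left₀ (norm_nonneg _) (form_bound _ _) _
  · intro γ z₀ hγ hγX G hG
    refine ⟨Finset.analyticAt_fun_prod _ fun j _ => (form_analyticAt (h j) hG.1).pow c, ?_⟩
    have h1 : analyticOrderAt (fun z => ∏ j ∈ S, form (h j) (G z) ^ c) z₀ =
        c * ∑ j ∈ S, analyticOrderAt (fun z => form (h j) (G z)) z₀ :=
      order_prod (fun j => form_analyticAt (h j) hG.1) S
    show _ ≤ analyticOrderAt (fun z => ∏ j ∈ S, form (h j) (G z) ^ c) z₀
    rw [h1]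
    exact hord γ z₀ hγ hγX G hG

/-- the hypothesis on the curves, proved in the library -/
abbrev HasSMT {M : ℕ} (n d N w : ℕ) (I : Ideal (MvPolynomial (Fin (M + 1)) ℂ))
    (h : Fin N → Exponent M d → ℂ) : Prop :=
  ∀ Y : ℂ → Fin (M + 1) → ℂ, Differentiable ℂ Y → (∀ z, Y z ≠ 0) → ¬ SM.IsConst Y →
    (∀ z (a : ℂ), ∀ G ∈ I, eval (a • Y z) G = 0) →
    ∃ (C : ℝ) (E : Set ℝ), 0 ≤ C ∧ MeasureTheory.volume E < ⊤ ∧ ∀ r : ℝ, 1 ≤ r → r ∉ E →
      ∀ S : Finset (Fin N), LD.LL w n ≤ S.card →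
        (1 - 1 / (w : ℝ)) * S.card * d * SM.height Y r ≤
          (∑ j ∈ S, open Classical in if ∃ z, CV.form (h j) (Y z) ≠ 0 then
            SM.count1 (fun z => CV.form (h j) (Y z)) r else 0) +
          C * (Real.log r + Real.posLog (SM.height Y r) + 1)

lemma bound_pos {w n : ℕ} (hw : 2 ≤ w) : 1 ≤ bound w n := by
  unfold bound
  have : 1 ≤ w ^ 2 := Nat.one_le_pow _ _ (by omega)
  exact Nat.mul_pos (Nat.mul_pos (Nat.mul_pos (by norm_num) this) (by omega)) (by omega)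

/-- forms that vanish at the lift of a point of the base -/
lemma card_lift {M n d N : ℕ} {I : Ideal (MvPolynomial (Fin (M + 1)) ℂ)}
    (hI : IsHomogeneousIdeal I) {h : Fin N → Exponent M d → ℂ}
    (hcard : ∀ y : Fin (M + 1) → ℂ, y ≠ 0 → (∀ G ∈ I, eval y G = 0) →
      {j | form (h j) y = 0}.ncard ≤ n) {x : PSpace M} (hx : x ∈ zeroSet I)
    {y : Fin (M + 1) → ℂ} (hy : y ≠ 0) (hxy : x = Projectivization.mk ℂ y hy) :
    {j | form (h j) y = 0}.ncard ≤ n := by
  refine hcard y hy fun F hF => ?_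
  have h5 := mem_zeroSet hI hy (by rw [← hxy]; exact hx) 1 F hF
  rwa [one_smul] at h5

/-- the three conditions -/
lemma ramified_degenerate {m M n d N w : ℕ} (hd : 1 ≤ d) (hw : 2 ≤ w)
    {I : Ideal (MvPolynomial (Fin (M + 1)) ℂ)} (hI : IsHomogeneousIdeal I)
    {h : Fin N → Exponent M d → ℂ} (hsmt : HasSMT n d N w I h)
    (hcard : ∀ y : Fin (M + 1) → ℂ, y ≠ 0 → (∀ G ∈ I, eval y G = 0) →
      {j | form (h j) y = 0}.ncard ≤ n)
    {X : Set (PSpace m)} {φ : PSpace m → PSpace M} (hφ : IsRegularOn X φ)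
    (hφV : ∀ x ∈ X, φ x ∈ zeroSet I) {S : Finset (Fin N)} (hS : LD.LL w n ≤ S.card)
    (hr : PartlyRamified w n X φ h S) :
    CurvesDegenerate X φ {x ∈ X | ∃ j ∈ S, form (h j) (φ x).rep = 0} := by
  classical
  have hpos : 1 ≤ S.card * d := Nat.mul_pos (lt_of_lt_of_le (bound_pos (n := n) hw) hS) hd
  obtain ⟨a, c, hac, hr⟩ := hr
  have hcardS : ∀ (γ : ℂ → PSpace m) (z₀ : ℂ), (∀ᶠ z in 𝓝 z₀, γ z ∈ X) →
      ∀ G : ℂ → Fin (M + 1) → ℂ, IsLift (fun z => φ (γ z)) G z₀ →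
        {j | j ∈ S ∧ form (h j) (G z₀) = 0}.ncard ≤ n := by
    intro γ z₀ hγX G hG
    obtain ⟨hG0, hGe⟩ := hG.2.self_of_nhds
    refine le_trans (Set.ncard_le_ncard ?_ (Set.toFinite _))
      (card_lift hI hcard (hφV _ hγX.self_of_nhds) hG0 hGe)
    rintro j ⟨-, hj⟩
    exact hj
  have hord : ∀ (γ : ℂ → PSpace m) (z₀ : ℂ), HolomorphicNear γ z₀ → (∀ᶠ z in 𝓝 z₀, γ z ∈ X) →
      ∀ G : ℂ → Fin (M + 1) → ℂ, IsLift (fun z => φ (γ z)) G z₀ →
        ((a * {j | j ∈ S ∧ form (h j) (G z₀) = 0}.ncard : ℕ) : ℕ∞) ≤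
          c * ∑ j ∈ S, analyticOrderAt (fun z => form (h j) (G z)) z₀ := by
    intro γ z₀ hγ hγX G hG
    have h7 := hcardS γ z₀ hγX G hG
    rcases hr γ z₀ hγ hγX G hG with h1 | ⟨hc, h1⟩ | ⟨hc, ha, j₀, hj₀, h5⟩
    · exact h1
    · rw [hc]
      calc ((a * {j | j ∈ S ∧ form (h j) (G z₀) = 0}.ncard : ℕ) : ℕ∞) ≤
            ((a * n : ℕ) : ℕ∞) := by exact_mod_cast Nat.mul_le_mul_left _ h7
        _ = n * (a : ℕ∞) := by push_cast; ring
        _ ≤ _ := by gcongr
    · rw [hc, ha]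
      have h6 := order_ge_card (fun j => form_analyticAt (h j) hG.1) hj₀ h5
      obtain ⟨q, hq⟩ : ∃ q, q = {j | j ∈ S ∧ form (h j) (G z₀) = 0}.ncard := ⟨_, rfl⟩
      rw [← hq] at h6 h7 ⊢
      calc (((n + 1) * q : ℕ) : ℕ∞) ≤ ((n * (q + 1) : ℕ) : ℕ∞) := by
            exact_mod_cast (by nlinarith : (n + 1) * q ≤ n * (q + 1))
        _ = n * ((q + 1 : ℕ) : ℕ∞) := by push_cast; ring
        _ ≤ _ := by gcongr
  have h3 := criterion (s := a) (b := c * (S.card * d)) hw hI hsmt hφ hφV hS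
    (product_section h S hord) (by
      calc w * (c * (S.card * d)) = (w * c) * (S.card * d) := by ring
        _ < ((w - 1) * a) * (S.card * d) := Nat.mul_lt_mul_of_pos_right hac hpos
        _ = _ := by ring)
  have h7 : {x ∈ X | (∃ j ∈ S, form (h j) (φ x).rep = 0) ∨
      ∏ j ∈ S, form (h j) (φ x).rep ^ c = 0} ⊆
        {x ∈ X | ∃ j ∈ S, form (h j) (φ x).rep = 0} := by
    rintro x ⟨hx, hx' | hx'⟩
    · exact ⟨hx, hx'⟩
    · obtain ⟨j, hj, hj'⟩ := Finset.prod_eq_zero_iff.mp hx'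
      exact ⟨hx, j, hj, eq_zero_of_pow_eq_zero hj'⟩
  refine ⟨fun f hf hfX => ?_, fun Z hZ hZ' => h3.2 Z (h7.trans hZ) hZ'⟩
  rcases h3.1 f hf hfX with h8 | h8
  · exact Or.inl h8
  · exact Or.inr fun z => h7 (h8 z)

/-- a product of entire functions vanishes only if a factor does -/
lemma exists_zero_factor {N : ℕ} {g : Fin N → ℂ → ℂ} (hg : ∀ j, Differentiable ℂ (g j))
    (S : Finset (Fin N)) (h : ∀ z, ∏ j ∈ S, g j z = 0) : ∃ j ∈ S, ∀ z, g j z = 0 := by
  classical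
  induction S using Finset.induction_on with
  | empty => simp at h
  | insert a S ha ih =>
    have h1 : ∀ z ∈ Set.univ, g a z * ∏ j ∈ S, g j z = 0 := fun z _ => by
      have h2 := h z
      rwa [Finset.prod_insert ha] at h2
    have hA1 : AnalyticOnNhd ℂ (g a) Set.univ := fun z _ => (hg a).analyticAt z
    have hA2 : AnalyticOnNhd ℂ (fun z => ∏ j ∈ S, g j z) Set.univ := fun z _ =>
      Finset.analyticAt_fun_prod _ fun j _ => (hg j).analyticAt z
    rcases hA1.eq_zero_or_eq_zero_of_mul_eq_zero hA2 h1 isPreconnected_univ with h2 | h2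
    · exact ⟨a, Finset.mem_insert_self a S, fun z => h2 z (Set.mem_univ z)⟩
    · obtain ⟨j, hj, h3⟩ := ih fun z => h2 z (Set.mem_univ z)
      exact ⟨j, Finset.mem_insert_of_mem hj, h3⟩

lemma regularOn_mono {m M : ℕ} {X X' : Set (PSpace m)} {φ : PSpace m → PSpace M}
    (hφ : IsRegularOn X φ) (hX : X' ⊆ X) : IsRegularOn X' φ := by
  intro x hx
  obtain ⟨e, π, h1, h2, h3⟩ := hφ x (hX hx)
  exact ⟨e, π, h1, h2, fun y hy => h3 y (hX hy)⟩

/-- the strong form -/
lemma strong {m M n d N w : ℕ} (hd : 1 ≤ d) (hw : 2 ≤ w)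
    {I : Ideal (MvPolynomial (Fin (M + 1)) ℂ)} (hI : IsHomogeneousIdeal I)
    {h : Fin N → Exponent M d → ℂ} (hsmt : HasSMT n d N w I h)
    (hcard : ∀ y : Fin (M + 1) → ℂ, y ≠ 0 → (∀ G ∈ I, eval y G = 0) →
      {j | form (h j) y = 0}.ncard ≤ n) (hN : bound w n + n ≤ N)
    {X : Set (PSpace m)} {φ : PSpace m → PSpace M} (hφ : IsRegularOn X φ)
    (hφV : ∀ x ∈ X, φ x ∈ zeroSet I)
    (hr : ∀ J : Finset (Fin N), J.card < n → ∃ S : Finset (Fin N), Disjoint S J ∧
      bound w n ≤ S.card ∧ PartlyRamified w n {x ∈ X | ∀ j ∈ J, form (h j) (φ x).rep = 0} φ h S) :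
    CurvesDegenerate X φ ∅ := by
  classical
  apply degenerate_of
  intro f hf hfX
  left
  by_contra hcon
  push Not at hcon
  obtain ⟨z₁, z₂, hz⟩ := hcon
  obtain ⟨Y, hY, hYg⟩ := SM.exists_reduced (g := fun z => φ (f z))
    (fun z => holomorphicNear_comp hφ (hf z) (Filter.Eventually.of_forall hfX))
  have hrep : ∀ z j, form (h j) (φ (f z)).rep = 0 ↔ form (h j) (Y z) = 0 := by
    intro z j
    obtain ⟨h1, h2⟩ := hYg z
    obtain ⟨c, hc, h3⟩ := rep_smul h1
    have h4 : (φ (f z)).rep = c • Y z := by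
      rw [← h3]
      exact congrArg _ h2
    rw [h4, form_smul, mul_eq_zero]
    exact ⟨fun h5 => h5.resolve_left (pow_ne_zero _ hc), Or.inr⟩
  have hdiff : ∀ j, Differentiable ℂ fun z => form (h j) (Y z) := fun j z =>
    (form_analyticAt (h j) (hY.analyticAt z)).differentiableAt
  obtain ⟨J, hJ⟩ : ∃ J : Finset (Fin N), J = Finset.univ.filter fun j =>
    ∀ z, form (h j) (Y z) = 0 := ⟨_, rfl⟩
  have hJmem : ∀ j, j ∈ J ↔ ∀ z, form (h j) (Y z) = 0 := fun j => by
    rw [hJ, Finset.mem_filter]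
    simp
  have hJcard : J.card ≤ n := by
    obtain ⟨h1, h2⟩ := hYg z₁
    refine le_trans ?_ (card_lift hI hcard (hφV _ (hfX z₁)) h1 h2)
    rw [← Set.ncard_coe_finset]
    refine Set.ncard_le_ncard ?_ (Set.toFinite _)
    intro j hj
    exact (hJmem j).mp hj z₁
  have hfJ : ∀ z, f z ∈ {x ∈ X | ∀ j ∈ J, form (h j) (φ x).rep = 0} := fun z =>
    ⟨hfX z, fun j hj => (hrep z j).mpr ((hJmem j).mp hj z)⟩
  have hsub : {x ∈ X | ∀ j ∈ J, form (h j) (φ x).rep = 0} ⊆ X := fun x hx => hx.1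
  obtain ⟨S, hSJ, hS, hSr⟩ : ∃ S : Finset (Fin N), Disjoint S J ∧
      bound w n ≤ S.card ∧
      PartlyRamified w n {x ∈ X | ∀ j ∈ J, form (h j) (φ x).rep = 0} φ h S := by
    rcases lt_or_eq_of_le hJcard with h1 | h1
    · exact hr J h1
    · refine ⟨Jᶜ, disjoint_compl_left, ?_, 1, 0, by omega, ?_⟩
      · rw [Finset.card_compl, Fintype.card_fin]
        omega
      · intro γ z₀ hγ hγX G hG
        left
        obtain ⟨h2, h3⟩ := hG.2.self_of_nhds
        have h4 := card_lift hI hcard (hφV _ (hsub hγX.self_of_nhds)) h2 h3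
        have h5 : (J : Set (Fin N)) ⊆ {j | form (h j) (G z₀) = 0} := by
          intro j hj
          have h6 := hγX.self_of_nhds.2 j hj
          obtain ⟨c, hc, h7⟩ := rep_smul h2
          have h8 : (φ (γ z₀)).rep = c • G z₀ := by
            rw [← h7]
            exact congrArg _ h3
          rw [h8, form_smul, mul_eq_zero] at h6
          exact h6.resolve_left (pow_ne_zero _ hc)
        have h6 : {j | form (h j) (G z₀) = 0} = (J : Set (Fin N)) := by
          refine (Set.eq_of_subset_of_ncard_le h5 ?_ (Set.toFinite _)).symm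
          rw [Set.ncard_coe_finset, h1]
          exact h4
        have h7 : {j | j ∈ Jᶜ ∧ form (h j) (G z₀) = 0} = ∅ := by
          ext j
          simp only [Set.mem_ofPred_eq, Set.mem_empty_iff_false, iff_false]
          rintro ⟨hj, hj'⟩
          have h8 : j ∈ {j | form (h j) (G z₀) = 0} := hj'
          rw [h6] at h8
          exact Finset.mem_compl.mp hj h8
        rw [h7, Set.ncard_empty]
        simp
  have hdeg := ramified_degenerate hd hw hI hsmt hcard (regularOn_mono hφ hsub)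
    (fun x hx => hφV x (hsub hx)) hS hSr
  rcases hdeg.1 f hf hfJ with h1 | h1
  · exact hz (h1 z₁ z₂)
  · obtain ⟨j, hj, h2⟩ := exists_zero_factor hdiff S fun z => by
      obtain ⟨-, j, hj, h2⟩ := h1 z
      exact Finset.prod_eq_zero hj ((hrep z j).mp h2)
    exact Finset.disjoint_left.mp hSJ hj ((hJmem j).mpr h2)

theorem result {M n d N w : ℕ} (hd : 1 ≤ d) (hw : 2 ≤ w)
    (I : Ideal (MvPolynomial (Fin (M + 1)) ℂ)) (hI : IsHomogeneousIdeal I)
    (hdim : Algebra.trdeg ℂ (MvPolynomial (Fin (M + 1)) ℂ ⧸ I) ≤ (n + 1 : ℕ)) :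
    ∃ Θ : MvPolynomial (Fin N × Exponent M d) ℂ, Θ ≠ 0 ∧
      ∀ h : Fin N → Exponent M d → ℂ,
        eval (fun x : Fin N × Exponent M d => h x.1 x.2) Θ ≠ 0 →
        (∀ Y : ℂ → Fin (M + 1) → ℂ, Differentiable ℂ Y →
          (∀ z, ∃ hz : Y z ≠ 0, Projectivization.mk ℂ (Y z) hz ∈ zeroSet I) →
          (∃ z z', ∀ a : ℂ, Y z ≠ a • Y z') →
          ∃ (C : ℝ) (E : Set ℝ), MeasureTheory.volume E < ⊤ ∧ ∀ r : ℝ, 1 ≤ r → r ∉ E →
            (∀ S : Finset (Fin N), bound w n ≤ S.card →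
              (1 - 1 / (w : ℝ)) * S.card * d * characteristic Y r ≤
                (∑ j ∈ S, open Classical in if ∃ z, form (h j) (Y z) ≠ 0 then
                  truncatedCount (fun z => form (h j) (Y z)) r else 0) +
                C * (Real.log r + Real.posLog (characteristic Y r) + 1)) ∧
            {j | (∃ z, form (h j) (Y z) ≠ 0) ∧ truncatedCount (fun z => form (h j) (Y z)) r <
              (1 - 1 / (w : ℝ)) * d * characteristic Y r -
                C * (Real.log r + Real.posLog (characteristic Y r) + 1)}.ncard < bound w n) ∧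
        (∀ (m : ℕ) (X : Set (PSpace m)) (φ : PSpace m → PSpace M), IsRegularOn X φ →
          (∀ x ∈ X, φ x ∈ zeroSet I) → ∀ S : Finset (Fin N), bound w n ≤ S.card →
          (∀ (s b : ℕ) (σ : PSpace m → (Fin (M + 1) → ℂ) → ℂ),
            IsVanishingSection s b X φ h S σ → w * b < (w - 1) * (s * (S.card * d)) →
            CurvesDegenerate X φ
              {x ∈ X | (∃ j ∈ S, form (h j) (φ x).rep = 0) ∨ σ x (φ x).rep = 0}) ∧
          (PartlyRamified w n X φ h S →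
            CurvesDegenerate X φ {x ∈ X | ∃ j ∈ S, form (h j) (φ x).rep = 0})) ∧
        (bound w n + n ≤ N → ∀ (m : ℕ) (X : Set (PSpace m)) (φ : PSpace m → PSpace M),
          IsRegularOn X φ → (∀ x ∈ X, φ x ∈ zeroSet I) →
          (∀ J : Finset (Fin N), J.card < n → ∃ S : Finset (Fin N), Disjoint S J ∧
            bound w n ≤ S.card ∧
            PartlyRamified w n {x ∈ X | ∀ j ∈ J, form (h j) (φ x).rep = 0} φ h S) →
          CurvesDegenerate X φ ∅) ∧
        ∀ x ∈ zeroSet I, {j | form (h j) x.rep = 0}.ncard ≤ n := by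
  classical
  obtain ⟨Θ₁, hΘ₁, h1⟩ := LD.forms_sub (n := n) (N := N) hd hw I hdim
  obtain ⟨Θ₂, hΘ₂, h2⟩ := LD.forms_card (n := n) (N := N) hd I hI hdim
  refine ⟨Θ₁ * Θ₂, mul_ne_zero hΘ₁ hΘ₂, ?_⟩
  intro h hh
  rw [map_mul] at hh
  have hh1 := left_ne_zero_of_mul hh
  have hh2 := right_ne_zero_of_mul hh
  have hbound : 1 ≤ bound w n := by
    unfold bound
    have : 1 ≤ w ^ 2 := Nat.one_le_pow _ _ (by omega)
    exact Nat.mul_pos (Nat.mul_pos (Nat.mul_pos (by norm_num) this) (by omega)) (by omega)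
  refine ⟨?_, ?_, ?_, ?_⟩
  · intro Y hY hYV hnc
    obtain ⟨C, E, hC, hE, hmain⟩ := h1 h hh1 Y hY (fun z => (hYV z).1) (by
      intro hc
      obtain ⟨z, w, hzw⟩ := hnc
      obtain ⟨a, ha⟩ := hc z w
      exact hzw a ha) (fun z a => by
        obtain ⟨hz, hz'⟩ := hYV z
        exact mem_zeroSet hI hz hz' a)
    refine ⟨C, E, hE, fun r hr hrE => ⟨hmain r hr hrE, ?_⟩⟩
    by_contra hcon
    rw [not_lt] at hcon
    obtain ⟨S, hSdef⟩ : ∃ S : Finset (Fin N), S = Finset.univ.filter fun j =>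
      (∃ z, form (h j) (Y z) ≠ 0) ∧ truncatedCount (fun z => form (h j) (Y z)) r <
              (1 - 1 / (w : ℝ)) * d * characteristic Y r -
                C * (Real.log r + Real.posLog (characteristic Y r) + 1) := ⟨_, rfl⟩
    have hcard : bound w n ≤ S.card := by
      refine hcon.trans (le_of_eq ?_)
      rw [← Set.ncard_coe_finset, hSdef]
      congr 1
      ext j
      simp
    have h3 := hmain r hr hrE S hcard
    obtain ⟨x, hx⟩ : ∃ x, x = Real.log r + Real.posLog (characteristic Y r) + 1 := ⟨_, rfl⟩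
    have hx1 : 0 ≤ x := by
      have := Real.log_nonneg hr
      have := Real.posLog_nonneg (x := characteristic Y r)
      linarith
    have h4 : (∑ j ∈ S, if ∃ z, form (h j) (Y z) ≠ 0 then
        truncatedCount (fun z => form (h j) (Y z)) r else 0) <
        ∑ _j ∈ S, ((1 - 1 / (w : ℝ)) * d * characteristic Y r - C * x) := by
      refine Finset.sum_lt_sum_of_nonempty (Finset.card_pos.mp (by omega)) fun j hj => ?_
      rw [hSdef, Finset.mem_filter] at hj
      rw [if_pos hj.2.1, hx]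
      exact hj.2.2
    rw [Finset.sum_const, nsmul_eq_mul] at h4
    have h5 : (1 - 1 / (w : ℝ)) * S.card * d * characteristic Y r ≤
        (∑ j ∈ S, if ∃ z, form (h j) (Y z) ≠ 0 then
        truncatedCount (fun z => form (h j) (Y z)) r else 0) + C * x := by
      rw [hx]
      exact h3
    have h6 : (1 : ℝ) ≤ S.card := by exact_mod_cast (by omega : 1 ≤ S.card)
    have h7 : C * x ≤ S.card * (C * x) := le_mul_of_one_le_left (mul_nonneg hC hx1) h6
    nlinarith
  · intro m X φ hφ hφV S hS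
    exact ⟨fun s b σ hσ hnum => criterion hw hI (h1 h hh1) hφ hφV hS hσ hnum,
      ramified_degenerate hd hw hI (h1 h hh1) (h2 h hh2) hφ hφV hS⟩
  · intro hN m X φ hφ hφV hr
    exact strong hd hw hI (h1 h hh1) (h2 h hh2) hN hφ hφV hr
  · intro x hx
    exact h2 h hh2 x.rep x.rep_nonzero hx

end Pool.Agent.Results.MP_8d161d_ag.LinearDefect
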